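import Pool.Agent.Run7.h615.WL.Cor
import Pool.Agent.Run7.h615.WL.Base

/-!
# MP_6451f1_ag: the `p`-adic monodromy-weight conjecture for varieties dominated by varieties whose
degenerations have simple strata
-/

set_option autoImplicit false

open Module

universe u

namespace Pool.Agent.Results.MP_6451f1_ag.HarmlessStrata

open Pool.Agent.Y143 Run7.h615.WL

/-- **The `p`-adic monodromy-weight conjecture, for all elements of the Weil group, for smooth proper
varieties `X` dominated by varieties whose degenerations have simple strata.** Let `X` be a smooth
proper variety over `K`, and `R = H^m_{pst,p}(X)`: a finite-dimensional vector space over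
`P = P_0 = W(\bar k)[1/p]` with the `P_0`-linear action of the Weil group `W` of `K` as in the problem (`g`
acts as `g φ ^ v(g)`) and the nilpotent monodromy operator `N`, with `N g = p ^ v(g) g N` (this is
`N φ = p φ N`). Let `K'` be a finite extension of `K`, with residue field with `p ^ f` elements, and `X'` a
smooth projective variety of dimension `n` over `K'` with a surjective map to `X`, such that `X'` has a
projective strictly semistable model over the ring of integers (by de Jong's theorem there is always
such an `X'`, with `n = dim X`). The structure `X'` below is the weight spectral sequence of Mokrane over
the algebraic closure `Ω` of `P_0`: the crystalline cohomology of the strata with the Frobenius and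
all maps between them, converging to the log-crystalline cohomology `V` of the special fibre, with
its Frobenius and its monodromy operator, which is `Ω ⊗ H^m_{pst,p}(X')`; the inertia group of `K'`
acts trivially. The cohomology of `X` is a direct summand of the one of `X'` (`D : Domination`: the
pull-back `i` and a multiple `r` of the push-forward are compatible with the Weil group of `K'` and
the monodromy operators, and `r i = 1`).

`Y^(a+1)`, of dimension `n - a`, is the disjoint union of the intersections of `a + 1` different
components of the special fibre of the model of `X'`, and `H^w` is the crystalline cohomology.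
Suppose that for all `a ≥ 0` and `w ≥ 2` with `a + 1 + w ≤ min(m, 2 n - m)` (so `w < dim Y^(a+1)`, and
`dim Y^(a+1) ≥ 3`) every character `χ` (generalized eigenvalue of the Frobenius) is harmless,
`HarmlessAt`: one of the following is true.

* The primitive part for `χ` of the term `E_1^(a+1, w)` of the weight spectral sequence has dimension at
  most one, or it is contained in the coboundaries or meets them in zero, or the primitive part
  for the dual character is contained in the coboundaries.
* `w = 2` and the classes of character `χ` in `H^2(Y^(a+1))` are combinations of divisor classes.
* `w ≥ 3` and the classes of character `χ` in `H^w(Y^(a+1))` are in `L H^(w-2)(Y^(a+1))`.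
* `w = 2 c + 2`, the classes of character `χ` in `H^w(Y^(a+1))` and all classes in `H^(2c)(Y^(a+2))` are
  algebraic, and the classes of cycles of codimension `c + 1` on `Y^(a+2)` satisfy the Hodge
  standard conjecture.

(In the last three cases up to classes with restriction zero to `Y^(a+2)` or, more generally, a
space `T` as in `GeneratedBy`.) Then for all `g` in the Weil group `W` and all `s`, the eigenvalues (in
`Ω`) of the linear action of `g` on the graded piece `gr_s` of the monodromy filtration of
`H^m_{pst,p}(X)` are algebraic numbers whose complex conjugates have the absolute value
`p ^ ((m + s) v(g) / 2)`.

For example this is so in all degrees `m` if for all strata `Y^(a+1)` of dimension `d ≥ 3`, `H^2` is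
spanned by divisor classes and `H^w = L H^(w-2)` for `3 ≤ w < d`, up to classes with restriction zero to
`Y^(a+2)`; for example if these strata are complete intersections in projective spaces or blow-ups of
complete intersections along complete intersections of codimension two. There is no condition on the
middle cohomology of the strata, and on the strata of dimension one and two. -/
theorem result {Ω : Type u} [Field Ω] [CharZero Ω] [IsAlgClosed Ω] {Γ : Type} {n p f : ℕ}
    (X' : Degeneration.{u, u} Ω Γ n (p ^ f)) (A : DivisorClasses X'.toSpecialFibre)
    (C : CycleClasses X'.toSpecialFibre) (m : ℕ)
    (h : ∀ (a w : ℕ) (χ : Γ → Ω), 2 ≤ w → a + 1 + w ≤ m → a + 1 + w + m ≤ 2 * n →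
      HarmlessAt A C a w χ)
    {P : Type u} [Field P] [Algebra P Ω] {W : Type} [Group W] {v : W →* Multiplicative ℤ}
    (R : WeilRep.{u, u} P v p) (D : Domination (R.baseChange Ω) f (X'.actV m X'.frob) (X'.N m)) :
    R.IsPureOver Ω m := by
  have hp : p ≠ 0 := fun h0 => X'.q_ne (by rw [h0, zero_pow D.extension.pos.ne'])
  exact isPureOver_of_baseChange hp
    (isPureRep_of_dominated (R.baseChange Ω) D hp (mw_of_harmless X' A C m h))

end Pool.Agent.Results.MP_6451f1_ag.HarmlessStrata
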