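import Pool.Agent.Run7.h261.PW.Main

/-!
# The `p`-adic monodromy-weight conjecture for hyperkähler varieties of any deformation type

Let `X` be a projective hyperkähler variety over a number field `K`, of any deformation type, and let
`K_u` be the completion of `K` at a place `u` above `p`. We prove the `p`-adic monodromy-weight conjecture
for `X` over `K_u` in all degrees: for all `g` in the Weil group of `K_u`, all `m` and all `a`, the
eigenvalues of `g` on the graded piece `gr_a` of the monodromy filtration of `D_pst(H^m(X))` are
algebraic numbers whose complex conjugates have absolute value `p ^ ((m + a) v(g) / 2)`. More generally
this is so for all tensor constructions with the cohomology groups of `X`, for instance for the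
Künneth components of the cohomology of all powers of `X`. The only case which is used is `H²(X)`,
where the conjecture is known.

Idea of the proof. By the theorem of the folder `Pool/Agent/Run7/h261/MT`, linear maps between tensor
constructions with the cohomology of `X`, of the same weight, which are compatible with the action of
the Lie algebra `so(H²)` (Verbitsky, Looijenga-Lunts) are compatible with an open subgroup of the Galois
group of `K`. (This is a global theorem: the Frobenius elements at the good places act on the invariants
of `so(H²)` in the tensor constructions of weight `2 m` as `p ^ m` times roots of unity, by their
slopes.) As the representations of `so(H²)` are semisimple, a tensor construction `e` of even weight is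
a direct summand of a finite sum of tensor constructions with `H²`, as a representation of an open
subgroup `U` of the Galois group. The functor `D_pst` only depends on the restriction to open subgroups,
so `D_pst(e)` is a direct summand of tensor constructions with `D_pst(H²)`, as a module with `N` and
with the action of an open subgroup of the Weil group. Spaces of linear maps between pure modules are
pure (by `sl₂`-triples), and so `D_pst(e)` is pure. If `m` is odd then `D_pst(H^m) ⊗ D_pst(H^m)` is pure of
weight `2 m` by this argument, and we show that this implies that `D_pst(H^m)` is pure of weight `m`.
-/

set_option autoImplicit false

namespace Pool.Agent.Results.MP_6451f1_ag.HyperkaehlerVarieties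

open NumberField Pool.Agent.Run7.h261.MT Pool.Agent.Run7.h261.PW

/-- **The `p`-adic monodromy-weight conjecture for projective hyperkähler varieties over number
fields**, of any deformation type. Let `e` be a tensor construction with the cohomology groups of `X`,
of weight `e.wt`, for example `e = Expr.H m`, of weight `m`. Then `D_pst(e)` is pure of weight `e.wt`: for
all `g` in the Weil group of the completion of `K` at the place above `p` and all `a`, each eigenvalue of
`g` on the graded piece `gr_a` of the monodromy filtration of `D_pst(e)` is an algebraic number all of
whose complex conjugates have absolute value `p ^ ((e.wt + a) v(g) / 2)`. -/
theorem result {K : Type} [Field K] [NumberField K] {Ω : Type} [Field Ω] [CharZero Ω]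
    [IsAlgClosed Ω] [TopologicalSpace Ω] [IsTopologicalRing Ω] [T2Space Ω] (R : HKPst K Ω)
    (e : Expr) (he : e.le R.X.d) : (loc R.P R.F.D e).IsPure R.P e.wt :=
  R.pure e he

end Pool.Agent.Results.MP_6451f1_ag.HyperkaehlerVarieties
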