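import Pool.Agent.Run7.h615.WS.Low
import Pool.Agent.Run7.h615.WL.Base

/-!
# MP_6451f1_ag: the `p`-adic monodromy-weight conjecture for varieties dominated by varieties whose
reduction has fibred components and simple Frobenius spectrum
-/

set_option autoImplicit false

open Module

universe u

namespace Pool.Agent.Results.MP_6451f1_ag.SimpleSpectrum

open Pool.Agent.Y143 Pool.Agent.X302.MW Run7.h615.WL Run7.h615.WS

/-- **The `p`-adic monodromy-weight conjecture, for all elements of the Weil group, for smooth proper
varieties `X` dominated by a variety whose reduction has fibred components and simple Frobenius
spectrum.** Let `X` be a smooth proper variety over `K`, and `R = H^m_{pst,p}(X)`: a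
finite-dimensional vector space over `P = P_0 = W(\bar k)[1/p]` with the `P_0`-linear action of the
Weil group `W` of `K` as in the problem (`g` acts as `g φ ^ v(g)`) and the nilpotent monodromy
operator `N`, with `N g = p ^ v(g) g N` (this is `N φ = p φ N`). Let `K'` be a finite extension of
`K`, with residue field with `p ^ f` elements, and `X'` a smooth projective variety of dimension
`n` over `K'` with a map to `X`, such that `X'` has a projective strictly semistable model over the
ring of integers. The map is surjective, or `m ≤ n`, `X` is projective and the map dominates a
linear section of `X` of dimension `n`. By de Jong's theorem (and the Lefschetz theorems) there is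
such an `X'`. The structure `X'` below is the weight spectral sequence of Mokrane over the
algebraic closure `Ω` of `P_0`: the crystalline cohomology of the strata with the Frobenius and all
maps between them, converging to the log-crystalline cohomology `V` of the special fibre, with its
Frobenius and its monodromy operator, which is `Ω ⊗ H^m_{pst,p}(X')`; the inertia group of `K'`
acts trivially. The cohomology of `X` is a direct summand of the one of `X'` (`D : Domination`: the
pull-back `i` and a map `r` given by the push-forward are compatible with the Weil group of `K'`
and the monodromy operators, and `r i = 1`).

`H^w` is the crystalline cohomology. `Y^(a+1)`, of dimension `n - a`, is the disjoint union of the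
intersections of `a + 1` different components of the special fibre of the model of `X'`; let `Y_i`
(`i : I`) be the components of `Y^(a+1)` and `D_j` (`j : J`) the components of `Y^(a+2)`, defined
over the residue field. Suppose that for all `a ≥ 0` and `w ≥ 2` with `a + 1 + w ≤ min(m, 2 n - m)`
(for a threefold this is `a = 0`, `w = 2` only) the following condition (`FibredAt`) is true. The
cohomology `H^w(Y^(a+1))` is generated by

* the classes of divisors, if `w = 2`, and the multiples of the class `L` of an ample divisor, if
  `w ≥ 3`;
* classes with restriction zero to `Y^(a+2)`;
* for each `i`, a space `T i` of classes on `Y_i` which comes from a smooth projective variety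
  `S_i` of dimension `w`, the base of a fibration of `Y_i` (or of a covering of `Y_i`): the
  restriction from `T i` to `D_j` multiplies the intersection form `form i` of `S_i` by the degree
  `deg i j ≥ 0` of `D_j ∩ L^(d-1-w)` over `S_i` (`d = n - a`), and it is zero if this degree is
  zero.

Moreover, for each link, that is a `D_j` which is mapped onto `S_i` for at least two of the `Y_i`
which contain it, the Frobenius has simple spectrum on the transcendental part of `H^w(D_j)`: the
generalized eigenspaces in the classes orthogonal to the classes of divisors (for `w = 2`), or to
the multiples of `L` (for `w ≥ 3`), have dimension at most one; this is only necessary for the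
eigenvalues `α` which occur on `T i` for two of these `i`.

Then for all `g` in the Weil group `W` and all `s`, the eigenvalues (in `Ω`) of the linear action
of `g` on the graded piece `gr_s` of the monodromy filtration of `H^m_{pst,p}(X)` are algebraic
numbers whose complex conjugates have the absolute value `p ^ ((m + s) v(g) / 2)`.

For threefolds the condition is satisfied if all components `Y_i` of the special fibre are
uniruled, or have no transcendental cycles, and the Frobenius on the transcendental part of the
second cohomology of the double surfaces has no multiple eigenvalue: if `P → Y_i` is a dominant map
of degree `e` and `P` has a fibration over a surface `S` whose general fibre is a rational curve,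
with image `C` in `Y_i`, then `H^2(Y_i)` is the direct sum of the classes of divisors and the space
`T i` of the classes `x` whose pull-back to `P` is the pull-back of a class `x_S` on `S` which is
orthogonal to the classes of curves, `form i x y = (x_S . y_S) / e` and `deg i j = D_j . C`. There
is no condition on the dual complex, on the geometric genus of the double surfaces or on `H^3`, and
the Tate conjecture is not assumed. In dimension `n ≥ 4` an example is a chain or a cycle of
projective line bundles over smooth complete intersections `S_i` of dimension `n - 1`, glued along
sections, such that the Frobenius has simple spectrum on the primitive cohomology of the `S_i`, if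
all strata of dimension at least three are complete intersections, or blow-ups of complete
intersections along complete intersections of codimension two.

The fields of the structures are known facts: `Degeneration` is the cohomology of the strata and of
the generic fibre of `X'` with the weight spectral sequence and the hard Lefschetz theorem;
`DivisorClasses` has the Hodge index theorem and Weil's positivity; the composites of the
restrictions `T i → H^w(D_j)` and their transposes `H^w(D_j) → T i'` are given by algebraic
correspondences, so together with powers of the Frobenius they have rational traces
(`HasRationalTraces`). -/
theorem result {Ω : Type u} [Field Ω] [CharZero Ω] [IsAlgClosed Ω] {Γ : Type} {n p f : ℕ}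
    (hp : p.Prime) (X' : Degeneration.{u, u} Ω Γ n (p ^ f)) (A : DivisorClasses X'.toSpecialFibre)
    (m : ℕ)
    (h : ∀ a w : ℕ, 2 ≤ w → a + 1 + w ≤ m → a + 1 + w + m ≤ 2 * n → FibredAt A a w)
    {P : Type u} [Field P] [Algebra P Ω] {W : Type} [Group W] {v : W →* Multiplicative ℤ}
    (R : WeilRep.{u, u} P v p) (D : Domination (R.baseChange Ω) f (X'.actV m X'.frob) (X'.N m)) :
    R.IsPureOver Ω m :=
  isPureOver_of_baseChange hp.ne_zero
    (isPureRep_of_dominated (R.baseChange Ω) D hp.ne_zero (mw_of_fibred X' A m h))

end Pool.Agent.Results.MP_6451f1_ag.SimpleSpectrum
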