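import Pool.Agent.Run7.h615.WM.Final
import Pool.Agent.Run7.h615.WM.IntDefs
import Pool.Agent.Run7.h615.WL.Base

/-!
# MP_6451f1_ag: the `p`-adic monodromy-weight conjecture for varieties dominated by threefolds with
uniruled reduction
-/

set_option autoImplicit false

open Module

universe u

namespace Pool.Agent.Results.MP_6451f1_ag.UniruledReduction

open Pool.Agent.Y143 Pool.Agent.X302.MW Run7.h615.WL Run7.h615.WM
open scoped NNReal

/-- **The `p`-adic monodromy-weight conjecture, for all elements of the Weil group, for smooth proper
varieties `X` dominated by threefolds with uniruled reduction whose links form a forest.** Let `X` be a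
smooth proper variety over `K`, and `R = H^m_{pst,p}(X)`: a finite-dimensional vector space over
`P = P_0 = W(\bar k)[1/p]` with the `P_0`-linear action of the Weil group `W` of `K` as in the problem (`g`
acts as `g φ ^ v(g)`) and the nilpotent monodromy operator `N`, with `N g = p ^ v(g) g N` (this is
`N φ = p φ N`). Let `K'` be a finite extension of `K`, with residue field with `p ^ f` elements, and `X'` a
smooth projective threefold over `K'` with a map to `X`, such that `X'` has a projective strictly
semistable model over the ring of integers. The map is surjective, or `m ≤ 3`, `X` is projective and
the map dominates a linear section of `X` of dimension three. By de Jong's theorem (and the Lefschetz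
theorems) there is such an `X'` for all `X` of dimension at most three, and for all projective `X` if
`m ≤ 3`. The structure `X'` below is the weight spectral sequence of Mokrane over the algebraic
closure `Ω` of `P_0`: the crystalline cohomology of the strata with the Frobenius and all maps between
them, converging to the log-crystalline cohomology `V` of the special fibre, with its Frobenius and
its monodromy operator, which is `Ω ⊗ H^m_{pst,p}(X')`; the inertia group of `K'` acts trivially. The
cohomology of `X` is a direct summand of the one of `X'` (`D : Domination`: the pull-back `i` and a
map `r` given by the push-forward are compatible with the Weil group of `K'` and the monodromy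
operators, and `r i = 1`).

Let `Y_i` (`i : I`) be the components of the special fibre of the model of `X'` and `D_j` (`j : J`) the
double surfaces, and `q' = p ^ f`. `H^2` is the crystalline cohomology. Suppose that

(1) the `Y_i` satisfy the Tate conjecture for divisors (`hT`);

(2) on the non-Tate part of `H^2(Y_i)` (the Frobenius eigenvalues which are not of the form `q' ζ` with
a root of unity `ζ`), the forms `x|D_j . y|D_j` given by the double surfaces `D_j` in `Y_i` are
multiples `deg i j * form i x y`, with `deg i j` a natural number, of one nondegenerate form, and the
restriction to `D_j` is zero if `deg i j = 0` (`F`);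

(3) for each non-Tate `α`, the graph whose vertices are the components and whose edges are the links
(the `D_j` with `deg i j ≠ 0` and `α` an eigenvalue on `H^2(Y_i)`, for both components `Y_i` which
contain `D_j`) is a forest, with an orientation such that for each link `D_j` the geometric genus of
`D_j` is at most one or `α` has the same multiplicity in `H^2(D_j)` and in `H^2` of the component
above `D_j` (`hF`).

Then for all `g` in the Weil group `W` and all `s`, the eigenvalues (in `Ω`) of the linear action of
`g` on the graded piece `gr_s` of the monodromy filtration of `H^m_{pst,p}(X)` are algebraic numbers
whose complex conjugates have the absolute value `p ^ ((m + s) v(g) / 2)`.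

Condition (2) is satisfied if each `Y_i` has one of the following properties: `H^2(Y_i)` has no
non-Tate part; `Y_i` is uniruled (`deg i j` is the intersection number of `D_j` with the general
rational curve `C` of a covering family, parametrized by a surface `S`, and `(L . C) * form i x y =
x . y . L` for an ample `L`; this is because non-Tate classes on `Y_i` come from classes on `S`); the
Picard number of `Y_i` is one; `Y_i` is fibred over a curve in K3 surfaces and the `D_j` in `Y_i` are
fibres or have no non-Tate classes. For example, all conditions are satisfied if `X'` is a Calabi-Yau
threefold with a degeneration of type II, with special fibre a chain of components, the interior ones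
uniruled and the outer ones without non-Tate classes, which meet in K3 surfaces (the Tate conjecture
is known in this case).

The other hypotheses are known. `hI`: the Frobenius eigenvalues on the strata are algebraic integers
(Katz and Messing). `hR`: the characteristic polynomials of the Frobenius on `H^2(Y_i)` and `H^2(D_j)`
are rational. `hS`: for a `p`-adic valuation `w`, Manin's integrality of the Newton polygons of the
Frobenius on `H^2(Y_i)` and on `H^2(D_j)`, and the Newton polygon of `H^2(D_j)` lies above the Hodge
polygon; `pg j` is the geometric genus of `D_j`. -/
theorem result {Ω : Type u} [Field Ω] [CharZero Ω] [IsAlgClosed Ω] {Γ : Type} {p f : ℕ}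
    (hp : p.Prime) (X' : Degeneration.{u, u} Ω Γ 3 (p ^ f)) (A : DivisorClasses X'.toSpecialFibre)
    (hI : IntegralFrobenius X'.toSpecialFibre) (hT : A.TateConj 0) {I J : Type} [Fintype I]
    [Fintype J] (C : Components X'.toSpecialFibre I J) (hR : C.IsRational) (w : Valuation Ω ℝ≥0)
    (pg : J → ℕ) (hS : HasSlopes C w pg) (F : ProportionalForms C)
    (hF : ∀ α : Ω, ¬ IsTateNumber (p ^ f) α → F.IsForest pg α) (m : ℕ)
    {P : Type u} [Field P] [Algebra P Ω] {W : Type} [Group W] {v : W →* Multiplicative ℤ}
    (R : WeilRep.{u, u} P v p) (D : Domination (R.baseChange Ω) f (X'.actV m X'.frob) (X'.N m)) :
    R.IsPureOver Ω m :=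
  isPureOver_of_baseChange hp.ne_zero
    (isPureRep_of_dominated (R.baseChange Ω) D hp.ne_zero
      (mw_forest rfl (hp.isPrimePow.pow D.extension.pos.ne') X' A hI hT C hR F w pg hS hF m))

end Pool.Agent.Results.MP_6451f1_ag.UniruledReduction
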